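import Pool.Agent.H487.MI.Stm0

set_option autoImplicit false

open MeasureTheory Complex

namespace Pool.Agent.H122.MI
open Pool.Agent.H487.MI

theorem sup_one (g : ℂ → ℂ) (hg : Differentiable ℂ g) (k z : ℂ) (r ρ : ℝ) (hr : 0 < r)
    (hρ : 2 * r ≤ ρ) (hz : ‖z - k‖ ≤ r) :
    ‖g z‖ ^ 2 ≤ (Real.pi)⁻¹ * ∫ θ in (0:ℝ)..(2 * Real.pi), ‖g (circleMap k ρ θ)‖ ^ 2 := by
  have hρ0 : 0 < ρ := by linarith
  have hmem : z ∈ Metric.ball k ρ := by
    rw [Metric.mem_ball, dist_eq_norm]; linarith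
  have hd : DiffContOnCl ℂ (fun w => g w ^ 2) (Metric.ball k ρ) :=
    (hg.pow 2).diffContOnCl
  have hC := hd.two_pi_i_inv_smul_circleIntegral_sub_inv_smul hmem
  have hn : ‖g z‖ ^ 2 = ‖(2 * Real.pi * I : ℂ)⁻¹ • ∮ w in C(k, ρ), (w - z)⁻¹ • (g w ^ 2)‖ := by
    rw [hC, norm_pow]
  rw [hn, norm_smul]
  have h2 : ‖(2 * Real.pi * I : ℂ)⁻¹‖ = (2 * Real.pi)⁻¹ := by
    rw [norm_inv]
    congr 1
    rw [norm_mul, Complex.norm_I, mul_one, norm_mul, Complex.norm_real, Real.norm_of_nonneg Real.pi_pos.le]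
    simp
  rw [h2]
  have hcont : Continuous fun θ : ℝ => ‖g (circleMap k ρ θ)‖ ^ 2 :=
    ((hg.continuous.comp (continuous_circleMap k ρ)).norm).pow 2
  have h3 : ‖∮ w in C(k, ρ), (w - z)⁻¹ • (g w ^ 2)‖ ≤
      ∫ θ in (0:ℝ)..(2 * Real.pi), 2 * ‖g (circleMap k ρ θ)‖ ^ 2 := by
    unfold circleIntegral
    apply intervalIntegral.norm_integral_le_of_norm_le (by positivity)
    · filter_upwards with θ
      intro _
      rw [norm_smul, norm_smul, norm_inv, norm_pow, deriv_circleMap, norm_mul, Complex.norm_I,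
        mul_one, norm_circleMap_zero, abs_of_pos hρ0, ← mul_assoc]
      apply mul_le_mul_of_nonneg_right _ (by positivity)
      have h4 : ρ / 2 ≤ ‖circleMap k ρ θ - z‖ := by
        have h5 : ‖circleMap k ρ θ - k‖ = ρ := by
          rw [circleMap_sub_center, norm_circleMap_zero, abs_of_pos hρ0]
        have h6 : ‖circleMap k ρ θ - k‖ ≤ ‖circleMap k ρ θ - z‖ + ‖z - k‖ := by
          have := norm_add_le (circleMap k ρ θ - z) (z - k)
          simpa using this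
        linarith
      have h7 : 0 < ‖circleMap k ρ θ - z‖ := by linarith
      rw [← div_eq_mul_inv, div_le_iff₀ h7]
      linarith
    · exact (continuous_const.mul hcont).intervalIntegrable _ _
  calc (2 * Real.pi)⁻¹ * ‖∮ w in C(k, ρ), (w - z)⁻¹ • (g w ^ 2)‖
      ≤ (2 * Real.pi)⁻¹ * ∫ θ in (0:ℝ)..(2 * Real.pi), 2 * ‖g (circleMap k ρ θ)‖ ^ 2 := by
        gcongr
    _ = (Real.pi)⁻¹ * ∫ θ in (0:ℝ)..(2 * Real.pi), ‖g (circleMap k ρ θ)‖ ^ 2 := by
        rw [intervalIntegral.integral_const_mul]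
        field_simp

theorem sup : S_SUP := by
  intro ι _ g hg K r ρ B a hr hρ ha hB
  classical
  have hρ0 : 0 < ρ := by linarith
  -- one disc
  have hone : ∀ k ∈ K, (((Finset.univ : Finset ι).filter
      (fun i => ∃ z : ℂ, ‖z - k‖ ≤ r ∧ a ≤ ‖g i z‖ ^ 2)).card : ℝ) ≤ 2 * B / a := by
    intro k hk
    rw [le_div_iff₀ ha]
    set T := (Finset.univ : Finset ι).filter (fun i => ∃ z : ℂ, ‖z - k‖ ≤ r ∧ a ≤ ‖g i z‖ ^ 2) with hT
    have hcont : ∀ i, Continuous fun θ : ℝ => ‖g i (circleMap k ρ θ)‖ ^ 2 := fun i =>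
      (((hg i).continuous.comp (continuous_circleMap k ρ)).norm).pow 2
    have h1 : (T.card : ℝ) * a ≤ ∑ i ∈ T, (Real.pi)⁻¹ *
        ∫ θ in (0:ℝ)..(2 * Real.pi), ‖g i (circleMap k ρ θ)‖ ^ 2 := by
      rw [← nsmul_eq_mul, ← Finset.sum_const]
      apply Finset.sum_le_sum
      intro i hi
      obtain ⟨z, hz, hza⟩ := (Finset.mem_filter.mp hi).2
      exact hza.trans (sup_one (g i) (hg i) k z r ρ hr hρ hz)
    have h2 : ∑ i ∈ T, (Real.pi)⁻¹ *
        ∫ θ in (0:ℝ)..(2 * Real.pi), ‖g i (circleMap k ρ θ)‖ ^ 2 ≤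
        ∑ i, (Real.pi)⁻¹ * ∫ θ in (0:ℝ)..(2 * Real.pi), ‖g i (circleMap k ρ θ)‖ ^ 2 := by
      apply Finset.sum_le_sum_of_subset_of_nonneg (Finset.subset_univ _)
      intro i _ _
      apply mul_nonneg (by positivity)
      apply intervalIntegral.integral_nonneg (by positivity)
      intro θ _; positivity
    have h3 : ∑ i, (Real.pi)⁻¹ * ∫ θ in (0:ℝ)..(2 * Real.pi), ‖g i (circleMap k ρ θ)‖ ^ 2 =
        (Real.pi)⁻¹ * ∫ θ in (0:ℝ)..(2 * Real.pi), ∑ i, ‖g i (circleMap k ρ θ)‖ ^ 2 := by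
      rw [← Finset.mul_sum, intervalIntegral.integral_finsetSum]
      intro i _
      exact (hcont i).intervalIntegrable _ _
    have h4 : ∫ θ in (0:ℝ)..(2 * Real.pi), ∑ i, ‖g i (circleMap k ρ θ)‖ ^ 2 ≤
        ∫ θ in (0:ℝ)..(2 * Real.pi), B := by
      apply intervalIntegral.integral_mono_on (by positivity)
      · exact (continuous_finsetSum _ (fun i _ => hcont i)).intervalIntegrable _ _
      · exact intervalIntegrable_const
      · intro θ _
        apply hB k hk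
        rw [circleMap_sub_center, norm_circleMap_zero, abs_of_pos hρ0]
    have h5 : (Real.pi)⁻¹ * ∫ θ in (0:ℝ)..(2 * Real.pi), B = 2 * B := by
      rw [intervalIntegral.integral_const]
      simp
      field_simp
    calc (T.card : ℝ) * a ≤ _ := h1
      _ ≤ _ := h2
      _ = _ := h3
      _ ≤ (Real.pi)⁻¹ * ∫ θ in (0:ℝ)..(2 * Real.pi), B := by gcongr
      _ = 2 * B := h5
  have hcard : Nat.card {i // ∃ k ∈ K, ∃ z : ℂ, ‖z - k‖ ≤ r ∧ a ≤ ‖g i z‖ ^ 2} ≤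
      ∑ k ∈ K, ((Finset.univ : Finset ι).filter
        (fun i => ∃ z : ℂ, ‖z - k‖ ≤ r ∧ a ≤ ‖g i z‖ ^ 2)).card := by
    rw [Nat.card_eq_fintype_card, Fintype.card_subtype]
    refine le_trans (Finset.card_le_card ?_) Finset.card_biUnion_le
    intro i hi
    obtain ⟨k, hk, z, hz⟩ := (Finset.mem_filter.mp hi).2
    rw [Finset.mem_biUnion]
    exact ⟨k, hk, Finset.mem_filter.mpr ⟨Finset.mem_univ _, z, hz⟩⟩
  calc (Nat.card {i // ∃ k ∈ K, ∃ z : ℂ, ‖z - k‖ ≤ r ∧ a ≤ ‖g i z‖ ^ 2} : ℝ)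
      ≤ ∑ k ∈ K, (((Finset.univ : Finset ι).filter
        (fun i => ∃ z : ℂ, ‖z - k‖ ≤ r ∧ a ≤ ‖g i z‖ ^ 2)).card : ℝ) := by exact_mod_cast hcard
    _ ≤ ∑ _k ∈ K, 2 * B / a := Finset.sum_le_sum hone
    _ = K.card * (2 * B / a) := by rw [Finset.sum_const, nsmul_eq_mul]

end Pool.Agent.H122.MI
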